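import Pool.Agent.Lib.MP_ab8df0_nt.T.L12

/-! The quantities attached to a solution of the second equation in the class of the fundamental
unit. -/

namespace Pool.Agent.Lib.MP_ab8df0_nt.T.B21

open NumberField IsDedekindDomain WithZero
open Pool.Agent.Lib.MP_ab8df0_nt.B Pool.Agent.Lib.MP_ab8df0_nt.C

/-- a triple whose fourth power is divisible by `D ^ 4` is divisible by the power of 2 in `D` -/
theorem odd_den : ∀ (D : ℕ), D ≠ 0 → ∀ a0 a1 a2 : ℤ,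
    (D : ℤ) ^ 4 ∣ (a0 ^ 2 + 6 * a1 * a2) ^ 2 + 6 * (2 * a0 * a1 + 3 * a2 ^ 2) * (2 * a0 * a2 + a1 ^ 2) →
    (D : ℤ) ^ 4 ∣ 2 * (a0 ^ 2 + 6 * a1 * a2) * (2 * a0 * a1 + 3 * a2 ^ 2) + 3 * (2 * a0 * a2 + a1 ^ 2) ^ 2 →
    (D : ℤ) ^ 4 ∣ 2 * (a0 ^ 2 + 6 * a1 * a2) * (2 * a0 * a2 + a1 ^ 2) + (2 * a0 * a1 + 3 * a2 ^ 2) ^ 2 →
    ∃ o b0 b1 b2 : ℤ, Odd o ∧ a0 * o = b0 * D ∧ a1 * o = b1 * D ∧ a2 * o = b2 * D := by
  intro D
  induction D using Nat.strong_induction_on with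
  | _ D ih =>
  intro hD a0 a1 a2 h0 h1 h2
  rcases Nat.even_or_odd' D with ⟨d, rfl | rfl⟩
  · have e : (2 : ℤ) ∣ ((2 * d : ℕ) : ℤ) ^ 4 := ⟨8 * d ^ 4, by push_cast; ring⟩
    have ev : ∀ u v w : ℤ, 2 ∣ w → w = u ^ 2 + 2 * v → 2 ∣ u := fun u v w h hw =>
      Int.prime_two.dvd_of_dvd_pow ((dvd_add_left (dvd_mul_right 2 v)).1 (hw ▸ h))
    obtain ⟨a0, rfl⟩ := ev a0 (3 * a1 * a2) _ (ev (a0 ^ 2 + 6 * a1 * a2)
      (3 * (2 * a0 * a1 + 3 * a2 ^ 2) * (2 * a0 * a2 + a1 ^ 2)) _ (e.trans h0) (by ring)) (by ring)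
    obtain ⟨a1, rfl⟩ := ev a1 (2 * a0 * a2) _ (ev (2 * (2 * a0) * a2 + a1 ^ 2)
      (((2 * a0) ^ 2 + 6 * a1 * a2) * (2 * (2 * a0) * a1 + 3 * a2 ^ 2) +
        (2 * (2 * a0) * a2 + a1 ^ 2) ^ 2) _ (e.trans h1) (by ring)) (by ring)
    obtain ⟨a2, rfl⟩ := ev a2 (4 * a0 * a1 + a2 ^ 2) _ (ev (2 * (2 * a0) * (2 * a1) + 3 * a2 ^ 2)
      (((2 * a0) ^ 2 + 6 * (2 * a1) * a2) * (2 * (2 * a0) * a2 + (2 * a1) ^ 2)) _ (e.trans h2)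
        (by ring)) (by ring)
    have c : ∀ u v : ℤ, ((2 * d : ℕ) : ℤ) ^ 4 ∣ u → u = 16 * v → (d : ℤ) ^ 4 ∣ v := fun u v h hu =>
      (mul_dvd_mul_iff_left (by norm_num : (16 : ℤ) ≠ 0)).1 (by
        rw [← hu, show 16 * (d : ℤ) ^ 4 = ((2 * d : ℕ) : ℤ) ^ 4 by push_cast; ring]; exact h)
    obtain ⟨o, b0, b1, b2, ho, k0, k1, k2⟩ := ih d (by omega) (by omega) a0 a1 a2
      (c _ _ h0 (by ring)) (c _ _ h1 (by ring)) (c _ _ h2 (by ring))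
    exact ⟨o, b0, b1, b2, ho, by push_cast; linear_combination 2 * k0,
      by push_cast; linear_combination 2 * k1, by push_cast; linear_combination 2 * k2⟩
  · exact ⟨(2 * d + 1 : ℕ), a0, a1, a2, ⟨d, by push_cast; ring⟩, rfl, rfl, rfl⟩

theorem mod8 : ∀ a0 a1 a2 : ZMod 8, ∀ b0 b1 b2 : ZMod 8, b0 = a0 ^ 2 + 6 * a1 * a2 →
    b1 = 2 * a0 * a1 + 3 * a2 ^ 2 → b2 = 2 * a0 * a2 + a1 ^ 2 →
    b0 ^ 2 + 6 * b1 * b2 = 2 * (2 * b0 * b2 + b1 ^ 2) → 4 * a0 = 0 ∧ 4 * a2 = 0 ∧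
      2 * b0 * b2 + b1 ^ 2 = 0 ∧ 4 * (2 * b0 * b1 + 3 * b2 ^ 2 - a1) = 0 := by
  intro a0 a1 a2 b0 b1 b2 h0 h1 h2
  subst h0 h1 h2
  revert a0 a1 a2
  decide +kernel

/-- the coordinates of the fourth root have odd denominators; their parities -/
theorem int2 {F : Type*} [Field F] [CharZero F] {y z : ℤ} {a0 a1 a2 : ℚ} (hyz : IsCoprime y z)
    (ha : m3 3 eps3 (p4 3 (a0, a1, a2)) = (-(z : ℚ), -(y : ℚ), 0)) :
    Odd z ∧ 2 ^ 3 ∣ y - 2 * z ∧ Q2 1 ((a0 : F) - ((0 : ℤ) : F)) ∧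
      Q2 1 ((a1 : F) - ((1 : ℤ) : F)) ∧ Q2 1 ((a2 : F) - ((0 : ℤ) : F)) := by
  simp only [m3, p4, eps3, Prod.mk.injEq] at ha
  obtain ⟨h0, h1, h2⟩ := ha
  obtain ⟨D, hD⟩ : ∃ D : ℕ, D = a0.den * a1.den * a2.den := ⟨_, rfl⟩
  have hD0 : D ≠ 0 := hD ▸ mul_ne_zero (mul_ne_zero a0.den_nz a1.den_nz) a2.den_nz
  obtain ⟨A0, e0⟩ : ∃ A : ℤ, (A : ℚ) = a0 * D := ⟨a0.num * a1.den * a2.den, by
    rw [hD]; push_cast; rw [← Rat.mul_den_eq_num]; ring⟩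
  obtain ⟨A1, e1⟩ : ∃ A : ℤ, (A : ℚ) = a1 * D := ⟨a1.num * a0.den * a2.den, by
    rw [hD]; push_cast; rw [← Rat.mul_den_eq_num]; ring⟩
  obtain ⟨A2, e2⟩ : ∃ A : ℤ, (A : ℚ) = a2 * D := ⟨a2.num * a0.den * a1.den, by
    rw [hD]; push_cast; rw [← Rat.mul_den_eq_num]; ring⟩
  obtain ⟨o, B0, B1, B2, ho, k0, k1, k2⟩ := odd_den D hD0 A0 A1 A2
    ⟨-4 * z - 6 * y, by
      refine Int.cast_injective (α := ℚ) ?_
      push_cast; rw [e0, e1, e2]; linear_combination (D : ℚ) ^ 4 * (4 * h0 + 6 * h1 + 9 * h2)⟩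
    ⟨-3 * z - 4 * y, by
      refine Int.cast_injective (α := ℚ) ?_
      push_cast; rw [e0, e1, e2]; linear_combination (D : ℚ) ^ 4 * (3 * h0 + 4 * h1 + 6 * h2)⟩
    ⟨-2 * z - 3 * y, by
      refine Int.cast_injective (α := ℚ) ?_
      push_cast; rw [e0, e1, e2]; linear_combination (D : ℚ) ^ 4 * (2 * h0 + 3 * h1 + 4 * h2)⟩
  have key : ∀ (a : ℚ) (A b : ℤ), (A : ℚ) = a * D → A * o = b * D → (b : ℚ) = a * o :=
    fun a A b e k => by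
    have k1 := congrArg (Int.cast : ℤ → ℚ) k
    push_cast at k1
    exact mul_right_cancel₀ (Nat.cast_ne_zero.2 hD0 : (D : ℚ) ≠ 0) (by rw [← k1, e]; ring)
  have f0 := key _ _ _ e0 k0
  have f1 := key _ _ _ e1 k1
  have f2 := key _ _ _ e2 k2
  obtain ⟨b0, hb0⟩ : ∃ b : ℤ, b = B0 ^ 2 + 6 * B1 * B2 := ⟨_, rfl⟩
  obtain ⟨b1, hb1⟩ : ∃ b : ℤ, b = 2 * B0 * B1 + 3 * B2 ^ 2 := ⟨_, rfl⟩
  obtain ⟨b2, hb2⟩ : ∃ b : ℤ, b = 2 * B0 * B2 + B1 ^ 2 := ⟨_, rfl⟩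
  have g2 : b0 ^ 2 + 6 * b1 * b2 = 2 * (2 * b0 * b2 + b1 ^ 2) := by
    refine Int.cast_injective (α := ℚ) ?_
    rw [hb0, hb1, hb2]; push_cast; rw [f0, f1, f2]; linear_combination (o : ℚ) ^ 4 * h2
  have g0 : z * o ^ 4 = 4 * (2 * b0 * b2 + b1 ^ 2) - 3 * (2 * b0 * b1 + 3 * b2 ^ 2) := by
    refine Int.cast_injective (α := ℚ) ?_
    rw [hb0, hb1, hb2]; push_cast; rw [f0, f1, f2]
    linear_combination (o : ℚ) ^ 4 * (h0 + 2 * h2)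
  have g1 : y * o ^ 4 = 2 * (2 * b0 * b1 + 3 * b2 ^ 2) - 3 * (2 * b0 * b2 + b1 ^ 2) := by
    refine Int.cast_injective (α := ℚ) ?_
    rw [hb0, hb1, hb2]; push_cast; rw [f0, f1, f2]; linear_combination (o : ℚ) ^ 4 * h1
  obtain ⟨m0, m2, m3, m4⟩ := mod8 B0 B1 B2 b0 b1 b2 (by exact_mod_cast congrArg Int.cast hb0)
    (by exact_mod_cast congrArg Int.cast hb1) (by exact_mod_cast congrArg Int.cast hb2)
    (by exact_mod_cast congrArg Int.cast g2)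
  have z8 : ∀ u : ℤ, (u : ZMod 8) = 0 → (8 : ℤ) ∣ u := fun u hu =>
    (ZMod.intCast_zmod_eq_zero_iff_dvd u 8).1 hu
  have n0 := z8 (4 * B0) (by exact_mod_cast m0)
  have n2 := z8 (4 * B2) (by exact_mod_cast m2)
  have n3 := z8 (2 * b0 * b2 + b1 ^ 2) (by exact_mod_cast m3)
  have n4 := z8 (4 * (2 * b0 * b1 + 3 * b2 ^ 2 - B1)) (by exact_mod_cast m4)
  generalize 2 * b0 * b2 + b1 ^ 2 = C2 at *
  generalize 2 * b0 * b1 + 3 * b2 ^ 2 = C1 at *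
  have co : IsCoprime (2 : ℤ) (o ^ 4) :=
    (Int.prime_two.coprime_iff_not_dvd.2 (by have := Int.odd_iff.1 ho; omega)).pow_right
  have d8 : (2 : ℤ) ^ 3 ∣ y - 2 * z := co.pow_left.dvd_of_dvd_mul_right (by
    rw [show (y - 2 * z) * o ^ 4 = 8 * C1 - 11 * C2 by linear_combination g1 - 2 * g0]
    omega)
  have hz : Odd z := by
    rcases Int.even_or_odd' z with ⟨k, rfl | rfl⟩
    · exact (Int.prime_two.not_isUnit (hyz.isUnit_of_dvd' (by omega) ⟨k, rfl⟩)).elim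
    · exact ⟨k, rfl⟩
  have hzo := Int.odd_iff.1 (hz.mul (ho.pow (n := 4)))
  have ho2 := Int.odd_iff.1 ho
  have fin : ∀ (a : ℚ) (b r : ℤ), (b : ℚ) = a * o → 2 ∣ b - r * o →
      Q2 1 ((a : F) - ((r : ℤ) : F)) := fun a b r e ⟨k, hk⟩ => ⟨k, o, ho, by
    have k1 := congrArg (Rat.cast : ℚ → F) e
    have k2 := congrArg (Int.cast : ℤ → F) hk
    push_cast at k1 k2 ⊢
    linear_combination k2 - k1⟩
  exact ⟨hz, d8, fin _ _ _ f0 (by omega), fin _ _ _ f1 (by omega), fin _ _ _ f2 (by omega)⟩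

variable {F : Type} [Field F] [NumberField F]

/-- the data of a solution -/
theorem data {th rho sig m1 m2 : F} (ht : th ^ 3 = 3) (hr : rho ^ 2 * (th ^ 2 - 2) ^ 3 = 1)
    (hs : (th ^ 2 - 2) * sig ^ 2 = (th ^ 2 - 2) - 3 * th ^ 2 + 2 * rho * (th ^ 2 - 2))
    (hs0 : sig ≠ 0) (h1 : sig * m1 = th * (1 - rho))
    (h2 : (th ^ 2 - 2) * (sig * m2) = th ^ 2 * (th ^ 2 + 4 - rho * (th ^ 2 - 2))) {x y z : ℤ}
    (hx : x ≠ 0) (hyz : IsCoprime y z) (h : 1 ^ 2 * x ^ 4 + 3 * y ^ 3 + (1 * z) ^ 3 = 0)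
    (hf : Fac 3 1 eps3 y z) :
    ∃ t g E xi a0 a1 a2 : F, t * z = y ∧ 1 + t * th ≠ 0 ∧ g ≠ 0 ∧ Q2 3 (t - ((2 : ℤ) : F)) ∧
      Q2 1 (a0 - ((0 : ℤ) : F)) ∧ Q2 1 (a1 - ((1 : ℤ) : F)) ∧ Q2 1 (a2 - ((0 : ℤ) : F)) ∧
      g = 2 * (1 + t * th)⁻¹ - 1 ∧ E ^ 2 = 1 + 3 * g ^ 2 ∧ IsSquare (2 * rho * E) ∧
      xi ^ 2 = 1 + E ∧
      (a0 + th * (a1 + th * a2)) ^ 2 * xi = sig * (a0 ^ 2 + 6 * a1 * a2) +
        m1 * (2 * a0 * a1 + 3 * a2 ^ 2) + m2 * (2 * a0 * a2 + a1 ^ 2) ∧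
      ∀ v : HeightOneSpectrum (𝓞 F), ((6 : ℕ) : 𝓞 F) ∉ v.asIdeal →
        ∃ j : ℤ, v.valuation F (1 + xi) = exp (2 * j) := by
  obtain ⟨c, hc⟩ : ∃ c : F, c = th ^ 2 - 2 := ⟨_, rfl⟩
  rw [← hc] at hr hs h2
  obtain ⟨⟨a0, a1, a2⟩, ha⟩ := hf
  have ha' : m3 3 eps3 (p4 3 (a0, a1, a2)) = (-(z : ℚ), -(y : ℚ), 0) := by simpa using ha
  obtain ⟨hz, d8, q0, q1, q2⟩ := int2 (F := F) hyz ha'
  have ht' : th ^ 3 = ((3 : ℤ) : F) := by exact_mod_cast ht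
  have hF : (x : F) ^ 4 + 3 * y ^ 3 + z ^ 3 = 0 := by
    have := congrArg (Int.cast : ℤ → F) h
    push_cast at this
    linear_combination this
  have hxF : (x : F) ≠ 0 := Int.cast_ne_zero.2 hx
  have hN : (n3 3 (a0, a1, a2)) ^ 2 = (x : ℚ) ^ 2 := by
    have h1 := congrArg (n3 3) ha'
    rw [R13.n3_m3, R13.n3_p4] at h1
    have hQ : (x : ℚ) ^ 4 + 3 * y ^ 3 + z ^ 3 = 0 := by
      have := congrArg (Int.cast : ℤ → ℚ) h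
      push_cast at this
      linear_combination this
    refine (pow_left_inj₀ (sq_nonneg _) (sq_nonneg _) two_ne_zero).1 ?_
    simp only [n3, eps3] at h1 ⊢
    linear_combination h1 - hQ
  have hN' := congrArg (Rat.cast : ℚ → F) hN
  have hT := congrArg (fun p : Q3 => (p.2.2 : F)) ha'
  have hw := congrArg (e3 th) ha
  rw [R13.e3_m3 ht', R13.e3_p4 ht'] at hw
  simp only [n3, m3, p4, eps3, e3] at hN' hT hw
  push_cast at hN' hT hw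
  generalize (a0 : F) = u0 at *
  generalize (a1 : F) = u1 at *
  generalize (a2 : F) = u2 at *
  obtain ⟨al, hal⟩ : ∃ al : F, al = u0 + th * (u1 + th * u2) := ⟨_, rfl⟩
  have hw1 : -((z : F) + y * th) = c * al ^ 4 := by rw [hal, hc]; linear_combination -hw
  have hww : -((z : F) + y * th) * (z ^ 2 + y * th * (y * th - z)) = x ^ 4 := by
    linear_combination -hF - (y : F) ^ 3 * ht
  have hw0 : (z : F) + y * th ≠ 0 := fun h0 => by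
    rw [h0, neg_zero, zero_mul] at hww
    exact pow_ne_zero 4 hxF hww.symm
  have hc0 : c ≠ 0 := left_ne_zero_of_mul (hw1 ▸ neg_ne_zero.2 hw0)
  have ha0 : al ≠ 0 := fun h0 => neg_ne_zero.2 hw0 (by rw [hw1, h0]; ring)
  have hw2 : (z : F) - y * th ≠ 0 := fun q => by
    have e : ((z ^ 3 : ℤ) : F) = ((3 * y ^ 3 : ℤ) : F) := by
      push_cast
      rw [sub_eq_zero.1 q, mul_pow, ht, mul_comm]
    have e1 : z ^ 3 = 3 * y ^ 3 := by exact_mod_cast e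
    obtain ⟨k, rfl⟩ : (3 : ℤ) ∣ z := Int.prime_three.dvd_of_dvd_pow ⟨_, e1⟩
    exact Int.prime_three.not_isUnit (hyz.isUnit_of_dvd'
      (Int.prime_three.dvd_of_dvd_pow (n := 3) ⟨3 * k ^ 3, by linarith⟩) ⟨k, rfl⟩)
  obtain ⟨b0, hb0⟩ : ∃ b : F, b = u0 ^ 2 + 6 * u1 * u2 := ⟨_, rfl⟩
  obtain ⟨b1, hb1⟩ : ∃ b : F, b = 2 * u0 * u1 + 3 * u2 ^ 2 := ⟨_, rfl⟩
  obtain ⟨b2, hb2⟩ : ∃ b : F, b = 2 * u0 * u2 + u1 ^ 2 := ⟨_, rfl⟩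
  have hB : b0 + b1 * th + b2 * th ^ 2 = al ^ 2 := by
    rw [hb0, hb1, hb2, hal]; linear_combination (-2 * u1 * u2 - th * u2 ^ 2) * ht
  have hx2 : (x : F) ^ 2 = al ^ 2 * (b0 ^ 2 + (b1 * th) ^ 2 + (b2 * th ^ 2) ^ 2 - b0 * (b1 * th) -
      b0 * (b2 * th ^ 2) - b1 * th * (b2 * th ^ 2)) := by
    have : (x : F) ^ 2 = b0 ^ 3 + 3 * b1 ^ 3 + 9 * b2 ^ 3 - 9 * b0 * b1 * b2 := by
      rw [← hN', hb0, hb1, hb2]; ring
    rw [this, ← hB]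
    linear_combination (-(b1 ^ 3) - b2 ^ 3 * (th ^ 3 + 3) + 3 * b0 * b1 * b2) * ht
  have hT' : b0 ^ 2 + 6 * b1 * b2 - 2 * (2 * b0 * b2 + b1 ^ 2) = 0 := by
    rw [hb0, hb1, hb2]; linear_combination hT
  have key := R13.mu_sq (c0 := (-2 : F)) (c1 := 0) (c2 := th ^ 2) (b0 := b0) (b1 := b1 * th)
    (b2 := b2 * th ^ 2) (r := rho * c)
    (mul_left_cancel₀ hc0 (by rw [hc] at hr ⊢; linear_combination hr - (th ^ 3 + 3) * ht))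
    (by linear_combination th ^ 2 * hT' + 2 * b1 * b2 * th ^ 2 * ht)
  rw [hB, show (-2 : F) + 0 + th ^ 2 = c by rw [hc]; ring] at key
  obtain ⟨L, hL⟩ : ∃ L : F, L = sig * b0 + m1 * b1 + m2 * b2 := ⟨_, rfl⟩
  have hmu : c * al ^ 2 - 3 * (-2 * (b2 * th ^ 2) + 0 * (b1 * th) + th ^ 2 * b0) +
      rho * c * (3 * b0 - al ^ 2) = c * sig * L := by
    rw [hL, ← hB]
    linear_combination (-b0) * hs - c * b1 * h1 - b2 * h2 + b2 * th ^ 2 * hc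
  rw [hmu] at key
  have hxi : (L / al ^ 2) ^ 2 = 1 + 2 * (rho * (x / al ^ 3) ^ 2) := by
    have k1 : L ^ 2 * al ^ 2 = al ^ 6 + 2 * rho * x ^ 2 :=
      mul_left_cancel₀ (mul_ne_zero (pow_ne_zero 2 hc0) (pow_ne_zero 2 hs0)) (by
        rw [hx2]
        linear_combination al ^ 2 * key - c * al ^ 2 * (al ^ 4 + 2 * rho * (b0 ^ 2 + (b1 * th) ^ 2 +
          (b2 * th ^ 2) ^ 2 - b0 * (b1 * th) - b0 * (b2 * th ^ 2) - b1 * th * (b2 * th ^ 2))) * hs)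
    field_simp
    linear_combination k1
  have hE : (2 * (rho * (x / al ^ 3) ^ 2)) ^ 2 =
      1 + 3 * (((z : F) - y * th) / (z + y * th)) ^ 2 := by
    have h3 : 1 + 3 * (((z : F) - y * th) / (z + y * th)) ^ 2 =
        4 * x ^ 4 / (-((z : F) + y * th)) ^ 3 := by
      rw [← hww]; field_simp; ring
    rw [h3, hw1]; field_simp; linear_combination 4 * hr
  have hz0 : (z : F) ≠ 0 := ne_of_odd hz
  have hu1 : 1 + (y : F) / z * th = (z + y * th) / z := by field_simp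
  refine ⟨y / z, (z - y * th) / (z + y * th), 2 * (rho * (x / al ^ 3) ^ 2), L / al ^ 2, u0, u1, u2,
    div_mul_cancel₀ _ hz0, hu1 ▸ div_ne_zero hw0 hz0, div_ne_zero hw2 hw0, Q2.of_div hz d8,
    q0, q1, q2, ?_, hE, ⟨2 * rho * (x / al ^ 3), by ring⟩, hxi, ?_, ?_⟩
  · rw [hu1]; field_simp; ring
  · rw [← hal, ← hb0, ← hb1, ← hb2, ← hL]; field_simp
  · refine L12.X_even (d := 3) (k := 1) (c := c) (-2) 0 1 2 1 (by norm_num) (by norm_num) ht'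
      (by rw [hc]; push_cast; ring) hyz (by simpa using hr) ha0 (by simpa using hw1) ?_
      (div_ne_zero hxF (pow_ne_zero 3 ha0)) rfl hE hxi
    simp only [Int.cast_one, one_mul]
    field_simp

end Pool.Agent.Lib.MP_ab8df0_nt.T.B21
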