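import Pool.Agent.Lib.MP_ab8df0_nt.T.B21.Lem
import Pool.Agent.Lib.MP_ab8df0_nt.T.B21a.Core
import Pool.Agent.Lib.MP_ab8df0_nt.T.B21b.Core
import Pool.Agent.Lib.MP_ab8df0_nt.P.L2

/-! The class of the fundamental unit for the second equation. -/

namespace Pool.Agent.Lib.MP_ab8df0_nt.T.B21

open Pool.Agent.Lib.MP_ab8df0_nt.B Pool.Agent.Lib.MP_ab8df0_nt.C Pool.Agent.Lib.MP_ab8df0_nt.P

theorem main {K : Type} [Field K] [NumberField K] {a : K} {pl : List (Place K)}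
    {ph : List (K →+* ℝ)}
    {w : List (IsDedekindDomain.HeightOneSpectrum (NumberField.RingOfIntegers K))}
    (hP : Pack K (FDL2.pick [1, 2, 0]) a pl ph w) : BB21 := by
  intro x y z hx hyz h hf
  have r1 := B21a.relth hP
  have r2 := B21a.relrho hP
  have r3 := B21a.relsig hP
  have hs0 : cval a B21a.vs 9 ≠ 0 := fun q => by
    have r4 := B21a.relm1 hP
    rw [q] at r3 r4
    exact (by norm_num : (18 : K) ≠ 0) (by
      linear_combination (-6) * r1 + cval a B21a.vs 8 ^ 3 * r3 +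
        2 * cval a B21a.vs 8 ^ 2 * (cval a B21a.vs 8 ^ 2 - 2) * r4)
  obtain ⟨t, g, E, xi, a0, a1, a2, htz, h1, hg, hq, q0, q1, q2, hG, hE, hR, hxi, hlin, hev⟩ :=
    data (th := cval a B21a.vs 8) (rho := cval a B21a.vs 24) (sig := cval a B21a.vs 9)
      (m1 := cval a B21a.vs 10) (m2 := cval a B21a.vs 11) (by linear_combination r1)
      (by linear_combination r2) (by linear_combination r3) hs0 (B21a.relm1 hP)
      (by linear_combination B21a.relm2 hP) hx hyz h hf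
  have e : cval a B21b.vs 41 = 2 * cval a B21a.vs 24 := B21b.relr hP
  rw [← e] at hR
  have s1 : IsSquare (1 + 3 * g ^ 2) := ⟨E, by rw [← hE, sq]⟩
  have s2 : IsSquare (1 + E) := ⟨xi, by rw [← hxi, sq]⟩
  by_contra hn
  simp only [not_or] at hn
  obtain ⟨n1, n2⟩ := hn
  refine B21a.core hP t g E xi a0 a1 a2 hq hG hE s1 hxi q0 q1 q2 (by linear_combination hlin)
    (by linear_combination -hxi) hev fun hs => ?_
  have d0 : 3 * t - (-2) ≠ 0 := by exact_mod_cast L12.ne_of htz (-2) 3 (by omega)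
  have d1 : 4199 * t - (-6202) ≠ 0 := by exact_mod_cast L12.ne_of htz (-6202) 4199 (by omega)
  obtain ⟨Y, hY⟩ := L12.onD (dl := cval a B21b.vs 42) hg hE hxi hs (B21b.relD hP)
    (B21b.rela hP) (B21b.relb hP)
  obtain ⟨_, _, _, _, a1, a2, a3, a4, a5⟩ := L12.chain (th := cval a B21b.vs 40) h1 hG hE hxi
    (B21b.relG0 hP) (B21b.relE0 hP) (B21b.relxi0 hP) (B21b.relx0 hP) d0
  obtain ⟨_, _, _, _, b1, b2, b3, b4, b5⟩ := L12.chain (th := cval a B21b.vs 40) h1 hG hE hxi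
    (B21b.relG1 hP) (B21b.relE1 hP) (B21b.relxi1 hP) (B21b.relx1 hP) d1
  exact B21b.core hP t g E xi _ Y _ _ _ _ _ _ _ _ hq hG hE s1 hxi hR s2 hs rfl hY
    a1 a2 a3 a4 d0 a5 b1 b2 b3 b4 d1 b5

theorem bb : BB21 := by
  obtain ⟨pl, ph, w, hP⟩ := P.L2.pack
  exact main (hP.pick [1, 2, 0])

end Pool.Agent.Lib.MP_ab8df0_nt.T.B21
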